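import Pool.Agent.Helper71.UT.SegEx

/-!
# UT / MK: marks and segments of length between `r` and `2r` outside a small connected set (MP_0dbcb7_co)
-/

open Set
open Pool.Agent.Helper83.OP
open Pool.Agent.Helper95.UP

namespace Pool.Agent.Helper71.UT

variable {V : Type} {G : SimpleGraph V}

/-- distinct members of `M` have distance at least `r` -/
def Sep (G : SimpleGraph V) (r : ℕ) (M : Set V) : Prop :=
  ∀ u ∈ M, ∀ v ∈ M, u ≠ v → ∀ p : G.Walk u v, r ≤ p.length

theorem deg_pos_of_walk [Finite V] {u v : V} (huv : u ≠ v) (p : G.Walk u v) : deg G u ≠ 0 := by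
  intro h0
  cases p with
  | nil => exact huv rfl
  | cons h q =>
    have : (G.neighborSet u) = ∅ := (Set.ncard_eq_zero (Set.toFinite _)).mp h0
    have h2 : _ ∈ G.neighborSet u := h
    rw [this] at h2
    exact h2

/-- lower bound for all walks between different branch vertices -/
theorem branch_far [Finite V] (r : ℕ) (hdeg : ∀ v, deg G v ≠ 1)
    (hlow : ∀ u v (p : G.Walk u v), p.IsPath → u ≠ v → 3 ≤ deg G u → 3 ≤ deg G v →
      (∀ x ∈ p.support, x ≠ u → x ≠ v → deg G x = 2) → r ≤ p.length) :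
    ∀ (n : ℕ) (u v : V) (p : G.Walk u v), p.length ≤ n → p.IsPath → u ≠ v → 3 ≤ deg G u →
      3 ≤ deg G v → r ≤ p.length := by
  classical
  intro n
  induction n with
  | zero =>
    intro u v p hn hp huv
    exact absurd (SimpleGraph.Walk.eq_of_length_eq_zero (Nat.le_zero.mp hn)) huv
  | succ n ih =>
    intro u v p hn hp huv hu hv
    by_cases hall : ∀ x ∈ p.support, x ≠ u → x ≠ v → deg G x = 2
    · exact hlow u v p hp huv hu hv hall
    · push Not at hall
      obtain ⟨x, hx, hxu, hxv, hxd⟩ := hall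
      have h0 : deg G x ≠ 0 := by
        apply deg_pos_of_walk hxv (p.dropUntil x hx)
      have h1 := hdeg x
      have hlt : (p.takeUntil x hx).length < p.length := by
        have := congrArg SimpleGraph.Walk.length (p.take_spec hx)
        rw [SimpleGraph.Walk.length_append] at this
        have h2 : (p.dropUntil x hx).length ≠ 0 := fun h =>
          hxv (SimpleGraph.Walk.eq_of_length_eq_zero h)
        omega
      have := ih u x (p.takeUntil x hx) (by omega) (hp.takeUntil hx) (Ne.symm hxu) hu (by omega)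
      omega

theorem branch_sep [Finite V] (r : ℕ) (hdeg : ∀ v, deg G v ≠ 1)
    (hlow : ∀ u v (p : G.Walk u v), p.IsPath → u ≠ v → 3 ≤ deg G u → 3 ≤ deg G v →
      (∀ x ∈ p.support, x ≠ u → x ≠ v → deg G x = 2) → r ≤ p.length) :
    Sep G r {v | deg G v ≠ 2} := by
  classical
  intro u hu v hv huv p
  have hu0 := deg_pos_of_walk huv p
  have hv0 := deg_pos_of_walk huv.symm p.reverse
  have hu1 := hdeg u
  have hv1 := hdeg v
  simp only [Set.mem_ofPred_eq] at hu hv
  have := branch_far r hdeg hlow _ u v p.bypass le_rfl p.bypass_isPath huv (by omega) (by omega)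
  exact this.trans (p.length_bypass_le_length)

/-- a maximal separated set containing all vertices of degree different from two -/
theorem exists_max [Finite V] (r : ℕ) (B : Set V) (hB : Sep G r B) :
    ∃ M : Set V, B ⊆ M ∧ Sep G r M ∧ ∀ x, x ∉ M → ∃ m ∈ M, ∃ p : G.Walk x m, p.length < r := by
  obtain ⟨M, ⟨hBM, hM⟩, hmax⟩ := Set.exists_max_image {M : Set V | B ⊆ M ∧ Sep G r M}
    (fun M => M.ncard) (Set.toFinite _) ⟨B, subset_rfl, hB⟩
  refine ⟨M, hBM, hM, ?_⟩
  intro x hx
  by_contra hcon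
  push Not at hcon
  have hins : Sep G r (insert x M) := by
    intro u hu v hv huv p
    rcases Set.mem_insert_iff.mp hu with rfl | hu'
    · rcases Set.mem_insert_iff.mp hv with rfl | hv'
      · exact absurd rfl huv
      · exact hcon v hv' p
    · rcases Set.mem_insert_iff.mp hv with rfl | hv'
      · have := hcon u hu' p.reverse
        rwa [SimpleGraph.Walk.length_reverse] at this
      · exact hM u hu' v hv' huv p
  have := hmax (insert x M) ⟨hBM.trans (Set.subset_insert _ _), hins⟩
  rw [Set.ncard_insert_of_notMem hx (Set.toFinite _)] at this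
  omega

/-- a walk that leaves a path whose inner vertices have degree two is long -/
theorem leave [Finite V] {a b : V} {p : G.Walk a b} (hp : p.IsPath)
    (hin : ∀ x ∈ p.support, x ≠ a → x ≠ b → deg G x = 2) {x y : V} (w : G.Walk x y) :
    ∀ i, 0 < i → i < p.length → x = p.getVert i → (y ∉ p.support ∨ y = a ∨ y = b) →
      min i (p.length - i) ≤ w.length := by
  induction w with
  | nil =>
    intro i h0 h1 hx hy
    exfalso
    have hxs : p.getVert i ∈ p.support := p.getVert_mem_support i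
    rcases hy with h | h | h
    · exact h (hx ▸ hxs)
    · have := (hp.getVert_eq_start_iff h1.le).mp (hx.symm.trans h)
      omega
    · have := (hp.getVert_eq_end_iff h1.le).mp (hx.symm.trans h)
      omega
  | @cons x x' y h w ih =>
    intro i h0 h1 hx hy
    subst hx
    have hxs : p.getVert i ∈ p.support := p.getVert_mem_support i
    have hd : deg G (p.getVert i) = 2 := by
      apply hin _ hxs
      · intro h; have := (hp.getVert_eq_start_iff h1.le).mp h; omega
      · intro h; have := (hp.getVert_eq_end_iff h1.le).mp h; omega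
    rw [SimpleGraph.Walk.length_cons]
    rcases nbr_inner hp h0 h1 hd h with h2 | h2
    · by_cases hi : i = 1
      · omega
      · have := ih (i - 1) (by omega) (by omega) h2 hy
        omega
    · by_cases hi : i + 1 = p.length
      · omega
      · have := ih (i + 1) (by omega) (by omega) h2 hy
        omega

/-- a walk that starts inside such a path and avoids its ends stays inside -/
theorem stay [Finite V] {a b : V} {p : G.Walk a b} (hp : p.IsPath)
    (hin : ∀ x ∈ p.support, x ≠ a → x ≠ b → deg G x = 2) {x y : V} (w : G.Walk x y) :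
    x ∈ p.support → (∀ z ∈ w.support, z ≠ a ∧ z ≠ b) → y ∈ p.support := by
  induction w with
  | nil => intro hx _; exact hx
  | @cons x x' y h w ih =>
    intro hx hw
    apply ih
    · have hx2 := hw x (by simp)
      have := edge_inner hp hx hx2.1 hx2.2 (hin x hx hx2.1 hx2.2) h
      exact p.snd_mem_support_of_mem_edges this
    · intro z hz
      exact hw z (by simp [hz])

/-- **marks**: segments of length at least `r`; those that avoid `T` have length less than `2r`;
at most `vol T + 1` meet `T` -/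
theorem marks [Finite V] (G : SimpleGraph V) (r : ℕ) (hr : 1 ≤ r) (hdeg : ∀ v, deg G v ≠ 1)
    (hlow : ∀ u v (p : G.Walk u v), p.IsPath → u ≠ v → 3 ≤ deg G u → 3 ≤ deg G v →
      (∀ x ∈ p.support, x ≠ u → x ≠ v → deg G x = 2) → r ≤ p.length)
    (hcyc : ∀ (x : V) (C : G.Walk x x), C.IsCycle →
      ∃ u ∈ C.support, ∃ v ∈ C.support, u ≠ v ∧ 3 ≤ deg G u ∧ 3 ≤ deg G v)
    (T : Set V) (x0 : V) (hT : ∀ w ∈ T, ∃ p : G.Walk x0 w, ∀ z ∈ p.support, z ∈ T) :
    ∃ (Q : Type) (_ : Finite Q) (Sg : Seg G Q) (S0 : Set Q),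
      (∀ q, r ≤ Sg.len q) ∧ (∀ q, q ∉ S0 → Sg.len q < 2 * r) ∧
      (∀ q, q ∈ S0 ↔ ∃ z ∈ (Sg.T q).support, z ∈ T) ∧ S0.ncard ≤ vol G T + 1 := by
  classical
  obtain ⟨M0, hB, hsep, hmax⟩ := exists_max r {v | deg G v ≠ 2} (branch_sep r hdeg hlow)
  -- the marks
  set M : Set V := {v | v ∈ M0 ∧ (deg G v = 2 → v ∉ T)} with hMdef
  have hM2 : ∀ v, deg G v ≠ 2 → v ∈ M := fun v hv => ⟨hB hv, fun h => absurd h hv⟩
  have hMM0 : M ⊆ M0 := fun v hv => hv.1
  have hMT : ∀ v, v ∉ M → v ∉ T → v ∉ M0 := by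
    intro v hv hvT h
    exact hv ⟨h, fun _ => hvT⟩
  obtain ⟨Q, hQ, ⟨C⟩⟩ := exists_cut hM2 (by
    intro x C hc
    obtain ⟨u, hu, v, hv, huv, h1, h2⟩ := hcyc x C hc
    exact ⟨u, hu, v, hv, huv, hM2 u (by omega), hM2 v (by omega)⟩)
  have hQ' : Finite Q := hQ
  refine ⟨Q, hQ, C.sg, {q | ∃ z ∈ (C.sg.T q).support, z ∈ T}, ?_, ?_, fun q => Iff.rfl, ?_⟩
  · intro q
    exact hsep _ (hMM0 (C.ma q)) _ (hMM0 (C.mb q)) (C.sg.ne q) (C.sg.T q)
  · intro q hq
    have hq' : ∀ z ∈ (C.sg.T q).support, z ∉ T := fun z hz h => hq ⟨z, hz, h⟩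
    by_contra hlen
    push Not at hlen
    set p := C.sg.T q with hpdef
    have hlen' : 2 * r ≤ p.length := hlen
    have hp : p.IsPath := C.sg.path q
    have hxs : p.getVert r ∈ p.support := p.getVert_mem_support r
    have hxa : p.getVert r ≠ C.sg.a q := by
      intro h; have := (hp.getVert_eq_start_iff (by omega)).mp h; omega
    have hxb : p.getVert r ≠ C.sg.b q := by
      intro h; have := (hp.getVert_eq_end_iff (by omega)).mp h; omega
    have hxM : p.getVert r ∉ M := C.nm q _ hxs hxa hxb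
    obtain ⟨m, hm, w, hw⟩ := hmax _ (hMT _ hxM (hq' _ hxs))
    have hmm : m ∉ p.support ∨ m = C.sg.a q ∨ m = C.sg.b q := by
      by_contra hn
      push Not at hn
      obtain ⟨h1, h2, h3⟩ := hn
      exact hMT m (C.nm q m h1 h2 h3) (hq' m h1) hm
    have := leave hp (C.sg.inner q) w r (by omega) (by omega) rfl hmm
    omega
  · -- the count
    set S1 : Set Q := {q | ∃ z ∈ (C.sg.T q).support, z ∈ T} with hS1
    set S2 : Set Q := {q | (C.sg.a q ∈ T ∧ 3 ≤ deg G (C.sg.a q)) ∨
      (C.sg.b q ∈ T ∧ 3 ≤ deg G (C.sg.b q))} with hS2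
    -- ends in `T` are branch vertices
    have hend : ∀ v ∈ M, v ∈ T → deg G v ≠ 2 := fun v hv hvT h => hv.2 h hvT
    have hbranch : ∀ q, (C.sg.a q ∈ T → q ∈ S2) ∧ (C.sg.b q ∈ T → q ∈ S2) := by
      intro q
      constructor
      · intro h
        have h2 := hend _ (C.ma q) h
        have h0 := deg_pos_of_walk (C.sg.ne q) (C.sg.T q)
        have h1 := hdeg (C.sg.a q)
        exact Or.inl ⟨h, by omega⟩
      · intro h
        have h2 := hend _ (C.mb q) h
        have h0 := deg_pos_of_walk (C.sg.ne q).symm (C.sg.T q).reverse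
        have h1 := hdeg (C.sg.b q)
        exact Or.inr ⟨h, by omega⟩
    -- segments without an end in `T` contain `x0` as an inner vertex
    have hx0 : ∀ q ∈ S1, q ∉ S2 → x0 ∈ (C.sg.T q).support ∧ x0 ≠ C.sg.a q ∧ x0 ≠ C.sg.b q := by
      rintro q ⟨z, hz, hzT⟩ hq2
      obtain ⟨w, hw⟩ := hT z hzT
      have hav : ∀ y ∈ w.reverse.support, y ≠ C.sg.a q ∧ y ≠ C.sg.b q := by
        intro y hy
        rw [SimpleGraph.Walk.support_reverse, List.mem_reverse] at hy
        have hyT := hw y hy
        constructor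
        · rintro rfl; exact hq2 ((hbranch q).1 hyT)
        · rintro rfl; exact hq2 ((hbranch q).2 hyT)
      refine ⟨stay (C.sg.path q) (C.sg.inner q) w.reverse hz hav, ?_⟩
      exact hav x0 (by simp)
    have h12 : (S1 \ S2).ncard ≤ 1 := by
      rw [Set.ncard_le_one (Set.toFinite _)]
      rintro q ⟨hq1, hq2⟩ q' ⟨hq1', hq2'⟩
      by_contra hne
      have h1 := hx0 q hq1 hq2
      have h2 := hx0 q' hq1' hq2'
      rcases common_end C.sg hne h1.1 h2.1 with h | h
      · exact h1.2.1 h
      · exact h1.2.2 h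
    -- injection of `S2` into the darts counted by `vol`
    have hS2card : S2.ncard ≤ vol G T := by
      have hex : ∀ q ∈ S2, ∃ e : V × V, (e.1 ∈ T ∧ 3 ≤ deg G e.1 ∧ G.Adj e.1 e.2) ∧
          s(e.1, e.2) ∈ (C.sg.T q).edges := by
        intro q hq
        rcases hq with ⟨h1, h2⟩ | ⟨h1, h2⟩
        · obtain ⟨w, hw⟩ := exists_edge (C.sg.T q) (C.sg.ne q) (C.sg.T q).start_mem_support
          exact ⟨(C.sg.a q, w), ⟨h1, h2, (C.sg.T q).adj_of_mem_edges hw⟩, hw⟩
        · obtain ⟨w, hw⟩ := exists_edge (C.sg.T q) (C.sg.ne q) (C.sg.T q).end_mem_support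
          exact ⟨(C.sg.b q, w), ⟨h1, h2, (C.sg.T q).adj_of_mem_edges hw⟩, hw⟩
      have hne : Nonempty (V × V) := ⟨(x0, x0)⟩
      choose! f hf1 hf2 using hex
      apply Set.ncard_le_ncard_of_injOn f (fun q hq => hf1 q hq) _ (Set.toFinite _)
      intro q hq q' hq' h
      have h1 := hf2 q hq
      have h2 := hf2 q' hq'
      rw [← h] at h2
      exact C.sg.disj q q' _ h1 h2
    calc S1.ncard ≤ (S2 ∪ (S1 \ S2)).ncard := by
          apply Set.ncard_le_ncard _ (Set.toFinite _)
          intro q hq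
          by_cases h : q ∈ S2
          · exact Or.inl h
          · exact Or.inr ⟨hq, h⟩
      _ ≤ S2.ncard + (S1 \ S2).ncard := Set.ncard_union_le _ _
      _ ≤ vol G T + 1 := by omega

end Pool.Agent.Helper71.UT
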