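import Pool.Agent.Helper71.UT.SegEx
import Pool.Agent.Helper83.LN.Defs

/-!
# UT / ToThreads: segments as threads in the sense of the surgery layer (MP_0dbcb7_co)
-/

open Set
open Pool.Agent.Helper83.OP
open Pool.Agent.Helper95.UP

namespace Pool.Agent.Helper71.UT

variable {V : Type} {G : SimpleGraph V}

theorem edge_index {a b : V} (p : G.Walk a b) {f : Sym2 V} (hf : f ∈ p.edges) :
    ∃ t, t < p.length ∧ f = s(p.getVert t, p.getVert (t + 1)) := by
  induction p with
  | nil => simp at hf
  | cons h q ih =>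
    rw [SimpleGraph.Walk.edges_cons, List.mem_cons] at hf
    rcases hf with rfl | hf
    · exact ⟨0, by simp, by simp⟩
    · obtain ⟨t, ht, h⟩ := ih hf
      exact ⟨t + 1, by simpa using ht, by simpa using h⟩

/-- the threads of a system of segments -/
noncomputable def toThreads [Finite V] {Q : Type} (Sg : Seg G Q) : Pool.Agent.Helper83.LN.Threads G Q where
  len := fun q => (Sg.T q).length
  x := fun q t => (Sg.T q).getVert t
  pos := fun q => by
    rcases Nat.eq_zero_or_pos (Sg.T q).length with h | h
    · exact absurd (SimpleGraph.Walk.eq_of_length_eq_zero h) (Sg.ne q)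
    · exact h
  inj := fun q s t hs ht h => (Sg.path q).getVert_injOn (by simpa using hs) (by simpa using ht) h
  adj := fun q t ht => (Sg.T q).adj_getVert_succ ht
  cover := fun u v huv => by
    obtain ⟨q, hq⟩ := Sg.cover s(u, v) huv
    obtain ⟨t, ht, h⟩ := edge_index (Sg.T q) hq
    exact ⟨q, t, ht, h⟩
  uniq := fun q q' t t' ht ht' h => by
    have h1 := mem_edges_getVert (Sg.T q) ht
    have h2 := mem_edges_getVert (Sg.T q') ht'
    rw [← h] at h2
    have hqq := Sg.disj q q' _ h1 h2
    subst hqq
    refine ⟨rfl, ?_⟩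
    have inj := (Sg.path q).getVert_injOn
    rcases Sym2.eq_iff.mp h with ⟨ha, _⟩ | ⟨ha, hb⟩
    · exact inj (by simp; omega) (by simp; omega) ha
    · have e1 := inj (by simp; omega) (by simp; omega) ha
      have e2 := inj (by simp; omega) (by simp; omega) hb
      omega
  inner := fun q t h0 ht q' t' ht' h => by
    by_contra hne
    have h1 : (Sg.T q).getVert t ∈ (Sg.T q).support := (Sg.T q).getVert_mem_support t
    have h2 : (Sg.T q).getVert t ∈ (Sg.T q').support := by
      rw [← h]; exact (Sg.T q').getVert_mem_support t'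
    rcases common_end Sg (Ne.symm hne) h1 h2 with h3 | h3
    · have := ((Sg.path q).getVert_eq_start_iff ht.le).mp h3
      omega
    · have := ((Sg.path q).getVert_eq_end_iff ht.le).mp h3
      omega

theorem toThreads_len [Finite V] {Q : Type} (Sg : Seg G Q) (q : Q) :
    (toThreads Sg).len q = Sg.len q := rfl

theorem toThreads_x [Finite V] {Q : Type} (Sg : Seg G Q) (q : Q) (t : ℕ) :
    (toThreads Sg).x q t = (Sg.T q).getVert t := rfl

theorem toThreads_zero [Finite V] {Q : Type} (Sg : Seg G Q) (q : Q) :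
    (toThreads Sg).x q 0 = Sg.a q := by
  simp [toThreads_x]

theorem toThreads_last [Finite V] {Q : Type} (Sg : Seg G Q) (q : Q) :
    (toThreads Sg).x q ((toThreads Sg).len q) = Sg.b q := by
  rw [toThreads_x]
  exact (Sg.T q).getVert_length

theorem toThreads_support [Finite V] {Q : Type} (Sg : Seg G Q) (q : Q) (z : V) :
    z ∈ (Sg.T q).support ↔ ∃ i ≤ (toThreads Sg).len q, (toThreads Sg).x q i = z := by
  rw [SimpleGraph.Walk.mem_support_iff_exists_getVert]
  constructor
  · rintro ⟨i, h, hi⟩
    exact ⟨i, hi, h⟩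
  · rintro ⟨i, hi, h⟩
    exact ⟨i, h, hi⟩

theorem toThreads_edges [Finite V] {Q : Type} (Sg : Seg G Q) (q : Q) (f : Sym2 V) :
    f ∈ (Sg.T q).edges ↔ ∃ i < (toThreads Sg).len q,
      f = s((toThreads Sg).x q i, (toThreads Sg).x q (i + 1)) := by
  constructor
  · intro hf
    obtain ⟨t, ht, h⟩ := edge_index (Sg.T q) hf
    exact ⟨t, ht, h⟩
  · rintro ⟨i, hi, rfl⟩
    exact mem_edges_getVert (Sg.T q) hi

end Pool.Agent.Helper71.UT
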