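import Pool.Agent.Helper95.UP.Defs

/-!
# UT / SegEx: cutting a graph at a set of marks (MP_0dbcb7_co)
-/

open Set
open Pool.Agent.Helper83.OP
open Pool.Agent.Helper95.UP

namespace Pool.Agent.Helper71.UT

variable {V : Type} {G : SimpleGraph V}

/-- the neighbours of an inner vertex of degree two of a path -/
theorem nbr_inner [Finite V] {a b : V} {p : G.Walk a b} (hp : p.IsPath) {i : ℕ} (h0 : 0 < i)
    (hi : i < p.length) (hd : deg G (p.getVert i) = 2) {w : V} (hw : G.Adj (p.getVert i) w) :
    w = p.getVert (i - 1) ∨ w = p.getVert (i + 1) := by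
  have h1 : G.Adj (p.getVert i) (p.getVert (i + 1)) := p.adj_getVert_succ hi
  have h2 : G.Adj (p.getVert (i - 1)) (p.getVert (i - 1 + 1)) := p.adj_getVert_succ (by omega)
  rw [Nat.sub_add_cancel h0] at h2
  have hne : p.getVert (i - 1) ≠ p.getVert (i + 1) := by
    intro h
    have := hp.getVert_injOn (by simp; omega) (by simp; omega) h
    omega
  have hsub : ({p.getVert (i - 1), p.getVert (i + 1)} : Set V) ⊆ G.neighborSet (p.getVert i) := by
    intro z hz
    rcases hz with rfl | rfl
    · exact h2.symm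
    · exact h1
  have heq := Set.eq_of_subset_of_ncard_le hsub (by
    rw [Set.ncard_pair hne]
    exact hd.le) (Set.toFinite _)
  have : w ∈ ({p.getVert (i - 1), p.getVert (i + 1)} : Set V) := by
    rw [heq]; exact hw
  exact this

theorem mem_edges_getVert {a b : V} (p : G.Walk a b) {i : ℕ} (hi : i < p.length) :
    s(p.getVert i, p.getVert (i + 1)) ∈ p.edges := by
  induction p generalizing i with
  | nil => simp at hi
  | cons h q ih =>
    rcases i with _ | i
    · simp
    · simp only [SimpleGraph.Walk.length_cons, Nat.add_lt_add_iff_right] at hi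
      simp only [SimpleGraph.Walk.getVert_cons_succ, SimpleGraph.Walk.edges_cons,
        List.mem_cons]
      exact Or.inr (ih hi)

/-- all edges at an inner vertex of degree two belong to the path -/
theorem edge_inner [Finite V] {a b : V} {p : G.Walk a b} (hp : p.IsPath) {x : V}
    (hx : x ∈ p.support) (hxa : x ≠ a) (hxb : x ≠ b) (hd : deg G x = 2) {w : V}
    (hw : G.Adj x w) : s(x, w) ∈ p.edges := by
  obtain ⟨i, hi, hil⟩ := SimpleGraph.Walk.mem_support_iff_exists_getVert.mp hx
  subst hi
  have h0 : 0 < i := by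
    rcases Nat.eq_zero_or_pos i with rfl | h
    · exact absurd (p.getVert_zero) hxa
    · exact h
  have h1 : i < p.length := by
    rcases hil.lt_or_eq with h | rfl
    · exact h
    · exact absurd (p.getVert_length) hxb
  rcases nbr_inner hp h0 h1 hd hw with rfl | rfl
  · have := mem_edges_getVert p (i := i - 1) (by omega)
    rw [Nat.sub_add_cancel h0, Sym2.eq_swap] at this
    exact this
  · exact mem_edges_getVert p h1

/-- every vertex of a walk of positive length has an edge in the walk -/
theorem exists_edge {a b : V} (p : G.Walk a b) (hab : a ≠ b) {x : V} (hx : x ∈ p.support) :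
    ∃ w, s(x, w) ∈ p.edges := by
  obtain ⟨i, hi, hil⟩ := SimpleGraph.Walk.mem_support_iff_exists_getVert.mp hx
  subst hi
  have hpos : 0 < p.length := by
    rcases Nat.eq_zero_or_pos p.length with h | h
    · exact absurd (SimpleGraph.Walk.eq_of_length_eq_zero h) hab
    · exact h
  rcases hil.lt_or_eq with h | rfl
  · exact ⟨_, mem_edges_getVert p h⟩
  · have := mem_edges_getVert p (i := p.length - 1) (by omega)
    rw [Nat.sub_add_cancel hpos, Sym2.eq_swap] at this
    exact ⟨_, this⟩

/-- cut at all vertices of `M` -/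
structure Cut {V : Type} (G : SimpleGraph V) (M : Set V) (Q : Type) where
  sg : Seg G Q
  ma : ∀ q, sg.a q ∈ M
  mb : ∀ q, sg.b q ∈ M
  nm : ∀ q, ∀ x ∈ (sg.T q).support, x ≠ sg.a q → x ≠ sg.b q → x ∉ M

theorem cut_univ (G : SimpleGraph V) : Nonempty (Cut G Set.univ G.edgeSet) := by
  have hx : ∀ f : G.edgeSet, ∃ x y : V, (f : Sym2 V) = s(x, y) := by
    rintro ⟨f, hf⟩
    induction f with
    | _ x y => exact ⟨x, y, rfl⟩
  choose a b hab using hx
  have hadj : ∀ f : G.edgeSet, G.Adj (a f) (b f) := by
    intro f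
    have := f.2
    rw [hab f] at this
    exact this
  refine ⟨⟨⟨a, b, fun q => SimpleGraph.Walk.cons (hadj q) SimpleGraph.Walk.nil, ?_, ?_, ?_, ?_, ?_⟩,
    ?_, ?_, ?_⟩⟩
  · intro q; exact (hadj q).ne
  · intro q
    simp [SimpleGraph.Walk.cons_isPath_iff, (hadj q).ne]
  · intro f hf
    refine ⟨⟨f, hf⟩, ?_⟩
    simp only [SimpleGraph.Walk.edges_cons, SimpleGraph.Walk.edges_nil, List.mem_singleton]
    exact hab ⟨f, hf⟩
  · intro q q' f hf hf'
    simp only [SimpleGraph.Walk.edges_cons, SimpleGraph.Walk.edges_nil, List.mem_singleton] at hf hf'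
    apply Subtype.ext
    rw [hab q, hab q', ← hf, ← hf']
  · intro q x hx hxa hxb
    simp only [SimpleGraph.Walk.support_cons, SimpleGraph.Walk.support_nil, List.mem_cons,
      List.not_mem_nil, or_false] at hx
    rcases hx with rfl | rfl
    · exact absurd rfl hxa
    · exact absurd rfl hxb
  · intro q; trivial
  · intro q; trivial
  · intro q x hx hxa hxb
    simp only [SimpleGraph.Walk.support_cons, SimpleGraph.Walk.support_nil, List.mem_cons,
      List.not_mem_nil, or_false] at hx
    rcases hx with rfl | rfl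
    · exact absurd rfl hxa
    · exact absurd rfl hxb

/-- a segment with end `z`, oriented towards `z` -/
theorem orient {Q : Type} (Sg : Seg G Q) (q : Q) {z : V} (hz : z = Sg.a q ∨ z = Sg.b q) :
    ∃ (u : V) (p : G.Walk u z), p.IsPath ∧ u ≠ z ∧ (∀ f, f ∈ p.edges ↔ f ∈ (Sg.T q).edges) ∧
      (∀ x, x ∈ p.support ↔ x ∈ (Sg.T q).support) ∧ (u = Sg.a q ∨ u = Sg.b q) ∧
      (∀ x, x = Sg.a q ∨ x = Sg.b q ↔ x = u ∨ x = z) := by
  rcases hz with rfl | rfl
  · refine ⟨Sg.b q, (Sg.T q).reverse, (Sg.path q).reverse, (Sg.ne q).symm, ?_, ?_, Or.inr rfl, ?_⟩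
    · intro f; simp
    · intro x; simp
    · intro x; tauto
  · refine ⟨Sg.a q, Sg.T q, Sg.path q, Sg.ne q, ?_, ?_, Or.inl rfl, ?_⟩
    · intro f; simp
    · intro x; simp
    · intro x; tauto

theorem append_isPath {u v w : V} {p : G.Walk u v} {q : G.Walk v w} (hp : p.IsPath)
    (hq : q.IsPath) (h : ∀ x ∈ p.support, x ∈ q.support → x = v) : (p.append q).IsPath := by
  rw [SimpleGraph.Walk.isPath_def, SimpleGraph.Walk.support_append, List.nodup_append']
  refine ⟨hp.support_nodup, hq.support_nodup.tail, ?_⟩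
  intro x hx hx'
  have := h x hx (List.mem_of_mem_tail hx')
  subst this
  have hn := hq.support_nodup
  rw [← SimpleGraph.Walk.cons_tail_support] at hn
  exact (List.nodup_cons.mp hn).1 hx'

/-- a vertex of degree two has two different neighbours and no others -/
theorem two_nbrs {z : V} (hd : deg G z = 2) :
    ∃ w1 w2, w1 ≠ w2 ∧ G.Adj z w1 ∧ G.Adj z w2 ∧ ∀ w, G.Adj z w → w = w1 ∨ w = w2 := by
  obtain ⟨w1, w2, hne, h⟩ := Set.ncard_eq_two.mp hd
  refine ⟨w1, w2, hne, ?_, ?_, ?_⟩
  · have : w1 ∈ G.neighborSet z := by rw [h]; simp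
    exact this
  · have : w2 ∈ G.neighborSet z := by rw [h]; simp
    exact this
  · intro w hw
    have : w ∈ G.neighborSet z := hw
    rw [h] at this
    simpa using this

/-- two segments with a common vertex which is not an end of both are equal -/
theorem common_end [Finite V] {Q : Type} (Sg : Seg G Q) {q q' : Q} (hq : q ≠ q') {x : V}
    (hx : x ∈ (Sg.T q).support) (hx' : x ∈ (Sg.T q').support) :
    (x = Sg.a q ∨ x = Sg.b q) := by
  by_contra hn
  push Not at hn
  obtain ⟨w, hw⟩ := exists_edge (Sg.T q') (Sg.ne q') hx'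
  have hadj : G.Adj x w := (Sg.T q').adj_of_mem_edges hw
  exact hq (Sg.disj q q' _ (edge_inner (Sg.path q) hx hn.1 hn.2 (Sg.inner q x hx hn.1 hn.2) hadj)
    hw)

/-- remove the mark `z` of degree two: merge the two segments at `z` -/
theorem cut_step [Finite V] {M : Set V} {z : V} (hz : z ∉ M) (hd : deg G z = 2)
    (hC : ∀ (x : V) (C : G.Walk x x), C.IsCycle →
      ∃ u ∈ C.support, ∃ v ∈ C.support, u ≠ v ∧ u ∈ M ∧ v ∈ M)
    {Q : Type} [Finite Q] (C : Cut G (insert z M) Q) :
    ∃ (Q' : Type) (_ : Finite Q'), Nonempty (Cut G M Q') := by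
  obtain ⟨w1, w2, hw, ha1, ha2, hall⟩ := two_nbrs hd
  obtain ⟨q1, hq1⟩ := C.sg.cover s(z, w1) ha1
  obtain ⟨q2, hq2⟩ := C.sg.cover s(z, w2) ha2
  have hz1 : z = C.sg.a q1 ∨ z = C.sg.b q1 := by
    by_contra hn
    push Not at hn
    exact C.nm q1 z ((C.sg.T q1).fst_mem_support_of_mem_edges hq1) hn.1 hn.2 (by simp)
  have hz2 : z = C.sg.a q2 ∨ z = C.sg.b q2 := by
    by_contra hn
    push Not at hn
    exact C.nm q2 z ((C.sg.T q2).fst_mem_support_of_mem_edges hq2) hn.1 hn.2 (by simp)
  obtain ⟨u1, p1, hp1, hu1, he1, hs1, hm1, hends1⟩ := orient C.sg q1 hz1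
  obtain ⟨u2, p2, hp2, hu2, he2, hs2, hm2, hends2⟩ := orient C.sg q2 hz2
  have hq12 : q1 ≠ q2 := by
    rintro rfl
    have h1 := hp1.eq_penultimate_of_mem_edges ((he1 _).mpr hq1)
    have h2 := hp1.eq_penultimate_of_mem_edges ((he1 _).mpr hq2)
    exact hw (h1.trans h2.symm)
  -- the marks
  have hu1M : u1 ∈ M := by
    have : u1 ∈ insert z M := by
      rcases hm1 with h | h
      · rw [h]; exact C.ma q1
      · rw [h]; exact C.mb q1
    exact (Set.mem_insert_iff.mp this).resolve_left hu1
  have hu2M : u2 ∈ M := by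
    have : u2 ∈ insert z M := by
      rcases hm2 with h | h
      · rw [h]; exact C.ma q2
      · rw [h]; exact C.mb q2
    exact (Set.mem_insert_iff.mp this).resolve_left hu2
  -- common vertices of the two segments are ends of both
  have hcom : ∀ x ∈ p1.support, x ∈ p2.support → (x = u1 ∨ x = z) ∧ (x = u2 ∨ x = z) := by
    intro x hx hx'
    exact ⟨(hends1 x).mp (common_end C.sg hq12 ((hs1 x).mp hx) ((hs2 x).mp hx')),
      (hends2 x).mp (common_end C.sg hq12.symm ((hs2 x).mp hx') ((hs1 x).mp hx))⟩
  have hinM : ∀ x, x ∈ M → x ∈ p1.support → x = u1 := by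
    intro x hx hxs
    by_contra hn
    have hxz : x ≠ z := by rintro rfl; exact hz hx
    have : ¬ (x = C.sg.a q1 ∨ x = C.sg.b q1) := by
      rw [hends1]; push Not; exact ⟨hn, hxz⟩
    push Not at this
    exact C.nm q1 x ((hs1 x).mp hxs) this.1 this.2 (by simp [hx])
  have hinM2 : ∀ x, x ∈ M → x ∈ p2.support → x = u2 := by
    intro x hx hxs
    by_contra hn
    have hxz : x ≠ z := by rintro rfl; exact hz hx
    have : ¬ (x = C.sg.a q2 ∨ x = C.sg.b q2) := by
      rw [hends2]; push Not; exact ⟨hn, hxz⟩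
    push Not at this
    exact C.nm q2 x ((hs2 x).mp hxs) this.1 this.2 (by simp [hx])
  have hu12 : u1 ≠ u2 := by
    intro h
    subst h
    have hcyc : (p1.append p2.reverse).IsCycle := by
      apply hp1.isCycle_append hp2.reverse
      · intro x hx hx'
        have hx1 : x ∈ p1.support := List.mem_of_mem_tail hx
        have hx2 : x ∈ p2.reverse.support := List.mem_of_mem_tail hx'
        rw [SimpleGraph.Walk.support_reverse, List.mem_reverse] at hx2
        rcases (hcom x hx1 hx2).1 with rfl | rfl
        · have hn := hp1.support_nodup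
          rw [← SimpleGraph.Walk.cons_tail_support] at hn
          exact (List.nodup_cons.mp hn).1 hx
        · have hn := hp2.reverse.support_nodup
          rw [← SimpleGraph.Walk.cons_tail_support] at hn
          exact (List.nodup_cons.mp hn).1 hx'
      · by_contra hn
        push Not at hn
        have l1 : p1.length = 1 := by
          have : p1.length ≠ 0 := fun h => hu1 (SimpleGraph.Walk.eq_of_length_eq_zero h)
          omega
        have l2 : p2.length = 1 := by
          have h0 : p2.length ≠ 0 := fun h => hu2 (SimpleGraph.Walk.eq_of_length_eq_zero h)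
          have := hn.2
          rw [SimpleGraph.Walk.length_reverse] at this
          omega
        have h1 := hp1.eq_penultimate_of_mem_edges ((he1 _).mpr hq1)
        have h2 := hp2.eq_penultimate_of_mem_edges ((he2 _).mpr hq2)
        apply hw
        rw [h1, h2, SimpleGraph.Walk.penultimate, SimpleGraph.Walk.penultimate, l1, l2]
        simp
    obtain ⟨a, ha, b, hb, hab, haM, hbM⟩ := hC _ _ hcyc
    have key : ∀ x ∈ (p1.append p2.reverse).support, x ∈ M → x = u1 := by
      intro x hx hxM
      rw [SimpleGraph.Walk.mem_support_append_iff] at hx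
      rcases hx with hx | hx
      · exact hinM x hxM hx
      · rw [SimpleGraph.Walk.support_reverse, List.mem_reverse] at hx
        exact hinM2 x hxM hx
    exact hab ((key a ha haM).trans (key b hb hbM).symm)
  -- the merged path
  have hW : (p1.append p2.reverse).IsPath := by
    apply append_isPath hp1 hp2.reverse
    intro x hx hx'
    rw [SimpleGraph.Walk.support_reverse, List.mem_reverse] at hx'
    obtain ⟨h1, h2⟩ := hcom x hx hx'
    rcases h1 with h1 | h1
    · rcases h2 with h2 | h2
      · exact absurd (h1.symm.trans h2) hu12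
      · exact h2
    · exact h1
  have hWe : ∀ f, f ∈ (p1.append p2.reverse).edges ↔ f ∈ (C.sg.T q1).edges ∨ f ∈ (C.sg.T q2).edges := by
    intro f
    rw [SimpleGraph.Walk.edges_append, List.mem_append, SimpleGraph.Walk.edges_reverse,
      List.mem_reverse, he1, he2]
  have hWs : ∀ x, x ∈ (p1.append p2.reverse).support ↔
      x ∈ (C.sg.T q1).support ∨ x ∈ (C.sg.T q2).support := by
    intro x
    rw [SimpleGraph.Walk.mem_support_append_iff, SimpleGraph.Walk.support_reverse,
      List.mem_reverse, hs1, hs2]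
  -- which segments contain `z`
  have hzq : ∀ q, z ∈ (C.sg.T q).support → q = q1 ∨ q = q2 := by
    intro q hzs
    obtain ⟨w, hwe⟩ := exists_edge (C.sg.T q) (C.sg.ne q) hzs
    rcases hall w ((C.sg.T q).adj_of_mem_edges hwe) with rfl | rfl
    · exact Or.inl (C.sg.disj _ _ _ hwe hq1)
    · exact Or.inr (C.sg.disj _ _ _ hwe hq2)
  let Q' : Type := Option {q : Q // q ≠ q1 ∧ q ≠ q2}
  let A : Q' → V := fun q => match q with
    | none => u1
    | some q => C.sg.a q.1
  let B : Q' → V := fun q => match q with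
    | none => u2
    | some q => C.sg.b q.1
  let T : ∀ q : Q', G.Walk (A q) (B q) := fun q => match q with
    | none => p1.append p2.reverse
    | some q => C.sg.T q.1
  have hnz : ∀ q : {q : Q // q ≠ q1 ∧ q ≠ q2}, z ∉ (C.sg.T q.1).support := by
    rintro ⟨q, h1, h2⟩ hzs
    rcases hzq q hzs with h | h
    · exact h1 h
    · exact h2 h
  refine ⟨Q', inferInstance, ⟨⟨⟨A, B, T, ?_, ?_, ?_, ?_, ?_⟩, ?_, ?_, ?_⟩⟩⟩
  · rintro (_ | q)
    · exact hu12
    · exact C.sg.ne q.1
  · rintro (_ | q)
    · exact hW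
    · exact C.sg.path q.1
  · intro f hf
    obtain ⟨q, hq⟩ := C.sg.cover f hf
    by_cases h1 : q = q1
    · subst h1
      exact ⟨none, (hWe f).mpr (Or.inl hq)⟩
    by_cases h2 : q = q2
    · subst h2
      exact ⟨none, (hWe f).mpr (Or.inr hq)⟩
    exact ⟨some ⟨q, h1, h2⟩, hq⟩
  · rintro (_ | q) (_ | q') f hf hf'
    · rfl
    · exfalso
      rcases (hWe f).mp hf with h | h
      · exact q'.2.1 (C.sg.disj _ _ _ hf' h)
      · exact q'.2.2 (C.sg.disj _ _ _ hf' h)
    · exfalso
      rcases (hWe f).mp hf' with h | h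
      · exact q.2.1 (C.sg.disj _ _ _ hf h)
      · exact q.2.2 (C.sg.disj _ _ _ hf h)
    · have := C.sg.disj _ _ _ hf hf'
      exact congrArg some (Subtype.ext this)
  · rintro (_ | q) x hx hxa hxb
    · by_cases hxz : x = z
      · rw [hxz]; exact hd
      · rcases (hWs x).mp hx with h | h
        · have hn : ¬ (x = C.sg.a q1 ∨ x = C.sg.b q1) := by
            rw [hends1]; push Not; exact ⟨hxa, hxz⟩
          push Not at hn
          exact C.sg.inner q1 x h hn.1 hn.2
        · have hn : ¬ (x = C.sg.a q2 ∨ x = C.sg.b q2) := by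
            rw [hends2]; push Not; exact ⟨hxb, hxz⟩
          push Not at hn
          exact C.sg.inner q2 x h hn.1 hn.2
    · exact C.sg.inner q.1 x hx hxa hxb
  · rintro (_ | q)
    · exact hu1M
    · have h := C.ma q.1
      refine (Set.mem_insert_iff.mp h).resolve_left ?_
      intro h'
      have h2 : ∀ y, y = C.sg.a q.1 → y ∈ (C.sg.T q.1).support := by
        rintro y rfl
        exact (C.sg.T q.1).start_mem_support
      exact hnz q (h2 z h'.symm)
  · rintro (_ | q)
    · exact hu2M
    · have h := C.mb q.1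
      refine (Set.mem_insert_iff.mp h).resolve_left ?_
      intro h'
      have h2 : ∀ y, y = C.sg.b q.1 → y ∈ (C.sg.T q.1).support := by
        rintro y rfl
        exact (C.sg.T q.1).end_mem_support
      exact hnz q (h2 z h'.symm)
  · rintro (_ | q) x hx hxa hxb
    · intro hxM
      rcases (hWs x).mp hx with h | h
      · exact hxa (hinM x hxM ((hs1 x).mpr h))
      · exact hxb (hinM2 x hxM ((hs2 x).mpr h))
    · intro hxM
      exact C.nm q.1 x hx hxa hxb (by simp [hxM])

/-- **existence of the segments** -/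
theorem exists_cut [Finite V] {M : Set V} (hM : ∀ v, deg G v ≠ 2 → v ∈ M)
    (hC : ∀ (x : V) (C : G.Walk x x), C.IsCycle →
      ∃ u ∈ C.support, ∃ v ∈ C.support, u ≠ v ∧ u ∈ M ∧ v ∈ M) :
    ∃ (Q : Type) (_ : Finite Q), Nonempty (Cut G M Q) := by
  have key : ∀ (n : ℕ) (M : Set V), (Mᶜ).ncard = n → (∀ v, deg G v ≠ 2 → v ∈ M) →
      (∀ (x : V) (C : G.Walk x x), C.IsCycle →
        ∃ u ∈ C.support, ∃ v ∈ C.support, u ≠ v ∧ u ∈ M ∧ v ∈ M) →
      ∃ (Q : Type) (_ : Finite Q), Nonempty (Cut G M Q) := by
    intro n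
    induction n with
    | zero =>
      intro M hn hM hC
      have : M = Set.univ := by
        have := (Set.ncard_eq_zero (Set.toFinite _)).mp hn
        exact Set.compl_empty_iff.mp this
      subst this
      exact ⟨G.edgeSet, inferInstance, cut_univ G⟩
    | succ n ih =>
      intro M hn hM hC
      have hne : (Mᶜ).Nonempty := by
        rw [← Set.ncard_pos (Set.toFinite _)]
        omega
      obtain ⟨z, hz⟩ := hne
      have hz' : z ∉ M := hz
      have hcard : ((insert z M)ᶜ).ncard = n := by
        have h1 : (insert z M)ᶜ = Mᶜ \ {z} := by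
          ext x; simp only [Set.mem_compl_iff, Set.mem_insert_iff, Set.mem_sdiff,
            Set.mem_singleton_iff, not_or]; tauto
        rw [h1, Set.ncard_sdiff_singleton_of_mem hz]
        omega
      obtain ⟨Q, hQ, ⟨C⟩⟩ := ih (insert z M) hcard (fun v hv => Or.inr (hM v hv)) (by
        intro x C hc
        obtain ⟨u, hu, v, hv, huv, h1, h2⟩ := hC x C hc
        exact ⟨u, hu, v, hv, huv, Or.inr h1, Or.inr h2⟩)
      have hd : deg G z = 2 := by
        by_contra h
        exact hz' (hM z h)
      have := hQ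
      exact cut_step hz' hd hC C
  exact key _ M rfl hM hC

end Pool.Agent.Helper71.UT
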